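import Pool.Agent.H86.FDA.S1

namespace Pool.FDA

open Function Filter

namespace Crt

variable {K : Type} [PAM K]

/-! congruences -/

/-- congruence modulo `m` in the semiring -/
def Cg (m x y : K) : Prop := ∃ u v, x + u * m = y + v * m

theorem Cg.refl (m x : K) : Cg m x x := ⟨0, 0, rfl⟩

theorem Cg.symm {m x y : K} (h : Cg m x y) : Cg m y x := by
  obtain ⟨u, v, h⟩ := h
  exact ⟨v, u, h.symm⟩

theorem Cg.trans {m x y z : K} (h : Cg m x y) (h' : Cg m y z) : Cg m x z := by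
  obtain ⟨u, v, h⟩ := h
  obtain ⟨u', v', h'⟩ := h'
  refine ⟨u + u', v + v', ?_⟩
  calc x + (u + u') * m = (x + u * m) + u' * m := by ring
    _ = (y + v * m) + u' * m := by rw [h]
    _ = (y + u' * m) + v * m := by ring
    _ = (z + v' * m) + v * m := by rw [h']
    _ = z + (v + v') * m := by ring

theorem Cg.add {m x y x' y' : K} (h : Cg m x y) (h' : Cg m x' y') : Cg m (x + x') (y + y') := by
  obtain ⟨u, v, h⟩ := h
  obtain ⟨u', v', h'⟩ := h'
  refine ⟨u + u', v + v', ?_⟩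
  calc x + x' + (u + u') * m = (x + u * m) + (x' + u' * m) := by ring
    _ = (y + v * m) + (y' + v' * m) := by rw [h, h']
    _ = y + y' + (v + v') * m := by ring

theorem Cg.mul_left {m x y : K} (z : K) (h : Cg m x y) : Cg m (z * x) (z * y) := by
  obtain ⟨u, v, h⟩ := h
  refine ⟨z * u, z * v, ?_⟩
  calc z * x + z * u * m = z * (x + u * m) := by ring
    _ = z * (y + v * m) := by rw [h]
    _ = z * y + z * v * m := by ring

theorem Cg.mul_right {m x y : K} (z : K) (h : Cg m x y) : Cg m (x * z) (y * z) := by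
  rw [mul_comm x, mul_comm y]
  exact h.mul_left z

theorem Cg.mul {m x y x' y' : K} (h : Cg m x y) (h' : Cg m x' y') : Cg m (x * x') (y * y') :=
  (h.mul_right x').trans (h'.mul_left y)

theorem Cg.zero (m z : K) : Cg m (z * m) 0 := ⟨0, z, by ring⟩

theorem Cg.div {m x y : K} (hm : 0 < m) (hyx : y ≤ x) (h : Cg m x y) :
    ∃ q, x = q * m + y := by
  obtain ⟨u, v, h⟩ := h
  have huv : u ≤ v := by
    by_contra hc
    have hc' : v < u := not_le.1 hc
    have h1 : v * m < u * m := mul_lt_mul_of_pos_right hc' hm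
    have h2 : y + v * m < x + u * m := add_lt_add_of_le_of_lt hyx h1
    exact absurd h (ne_of_gt h2)
  obtain ⟨q, hq⟩ := PAM.sub' u v huv
  refine ⟨q, ?_⟩
  have h3 : x + u * m = (q * m + y) + u * m := by
    rw [h, ← hq]; ring
  exact add_right_cancel h3

/-! bounds -/

theorem one_le_b (c : K) : (1 : K) ≤ c + 2 := by
  have h0 := PAM.zero_le' c
  have h1 : (1 : K) ≤ 2 := one_le_two
  calc (1 : K) ≤ 2 := h1
    _ = 0 + 2 := (zero_add 2).symm
    _ ≤ c + 2 := by gcongr

theorem two_le_b (c : K) : (2 : K) ≤ c + 2 := by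
  have h0 := PAM.zero_le' c
  calc (2 : K) = 0 + 2 := (zero_add 2).symm
    _ ≤ c + 2 := by gcongr

theorem pw (c : K) {A B : ℕ} (h : A ≤ B) : (c + 2) ^ A ≤ (c + 2) ^ B :=
  pow_le_pow_right₀ (one_le_b c) h

theorem add_b {c x y : K} {A B : ℕ} (hx : x ≤ (c + 2) ^ A) (hy : y ≤ (c + 2) ^ B) :
    x + y ≤ (c + 2) ^ (max A B + 1) := by
  have h1 : x ≤ (c + 2) ^ max A B := le_trans hx (pw c (le_max_left _ _))
  have h2 : y ≤ (c + 2) ^ max A B := le_trans hy (pw c (le_max_right _ _))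
  calc x + y ≤ (c + 2) ^ max A B + (c + 2) ^ max A B := add_le_add h1 h2
    _ = (c + 2) ^ max A B * 2 := by ring
    _ ≤ (c + 2) ^ max A B * (c + 2) :=
        mul_le_mul_of_nonneg_left (two_le_b c) (PAM.zero_le' _)
    _ = (c + 2) ^ (max A B + 1) := (pow_succ _ _).symm

theorem mul_b {c x y : K} {A B : ℕ} (hx : x ≤ (c + 2) ^ A) (hy : y ≤ (c + 2) ^ B) :
    x * y ≤ (c + 2) ^ (A + B) := by
  rw [pow_add]
  exact mul_le_mul hx hy (PAM.zero_le' _) (PAM.zero_le' _)

theorem nat_b (c : K) (r : ℕ) : (r : K) ≤ (c + 2) ^ (r + 1) := by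
  induction r with
  | zero => simp only [Nat.cast_zero]; exact PAM.zero_le' _
  | succ r ih =>
    push_cast
    have h1 : (1 : K) ≤ (c + 2) ^ (r + 1) := one_le_pow₀ (one_le_b c)
    calc (r : K) + 1 ≤ (c + 2) ^ (r + 1) + (c + 2) ^ (r + 1) := add_le_add ih h1
      _ = (c + 2) ^ (r + 1) * 2 := by ring
      _ ≤ (c + 2) ^ (r + 1) * (c + 2) :=
        mul_le_mul_of_nonneg_left (two_le_b c) (PAM.zero_le' _)
      _ = (c + 2) ^ (r + 1 + 1) := (pow_succ _ _).symm

theorem self_b (c : K) : c ≤ (c + 2) ^ 1 := by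
  rw [pow_one]
  exact le_add_of_nonneg_right (by
    have : (0 : K) ≤ 2 := zero_le_two
    exact this)

/-- `n! (c + 1)` -/
def Mm (n : ℕ) (c : K) : K := (n.factorial : K) * (c + 1)

/-- the moduli -/
def md (n : ℕ) (c : K) (i : ℕ) : K := 1 + ((i : K) + 1) * Mm n c

theorem Mm_b (n : ℕ) : ∃ N : ℕ, ∀ (K : Type) [PAM K] (c : K), Mm n c ≤ (c + 2) ^ N := by
  refine ⟨(n.factorial + 1) + (max 1 (1 + 1) + 1), fun K _ c => ?_⟩
  have h1 : (1 : K) ≤ (c + 2) ^ (1 + 1) := by
    have := nat_b c 1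
    simpa using this
  exact mul_b (nat_b c _) (add_b (self_b c) h1)

theorem md_b (n i : ℕ) : ∃ N : ℕ, ∀ (K : Type) [PAM K] (c : K), md n c i ≤ (c + 2) ^ N := by
  obtain ⟨N, hN⟩ := Mm_b n
  refine ⟨max (1 + 1) ((i + 1 + 1) + N) + 1, fun K _ c => ?_⟩
  have h1 : (1 : K) ≤ (c + 2) ^ (1 + 1) := by
    have := nat_b c 1
    simpa using this
  have h2 : ((i : K) + 1) ≤ (c + 2) ^ (i + 1 + 1) := by
    have := nat_b c (i + 1)
    push_cast at this
    exact this
  exact add_b h1 (mul_b h2 (hN K c))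

theorem md_pos (n i : ℕ) (c : K) : 0 < md n c i := by
  have h : (0 : K) ≤ ((i : K) + 1) * Mm n c := PAM.zero_le' _
  unfold md
  exact add_pos_of_pos_of_nonneg one_pos h

theorem one_le_md (n i : ℕ) (c : K) : 1 ≤ md n c i := PAM.disc' _ (md_pos n i c)

/-- the product of the first moduli -/
def pd (n : ℕ) (c : K) : ℕ → K
  | 0 => 1
  | k + 1 => pd n c k * md n c k

theorem pd_b (n k : ℕ) : ∃ N : ℕ, ∀ (K : Type) [PAM K] (c : K), pd n c k ≤ (c + 2) ^ N := by
  induction k with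
  | zero => exact ⟨0, fun K _ c => by simp [pd]⟩
  | succ k ih =>
    obtain ⟨N, hN⟩ := ih
    obtain ⟨N', hN'⟩ := md_b n k
    exact ⟨N + N', fun K _ c => mul_b (hN K c) (hN' K c)⟩

theorem one_le_pd (n k : ℕ) (c : K) : 1 ≤ pd n c k := by
  induction k with
  | zero => exact le_refl _
  | succ k ih =>
    have h := mul_le_mul ih (one_le_md n k c) zero_le_one (PAM.zero_le' _)
    rw [one_mul] at h
    exact h

theorem pd_zero (n : ℕ) (c : K) {i k : ℕ} (h : i < k) : Cg (md n c i) (pd n c k) 0 := by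
  induction k with
  | zero => exact absurd h (Nat.not_lt_zero _)
  | succ k ih =>
    rcases Nat.lt_succ_iff_lt_or_eq.1 h with h1 | h1
    · have := (ih h1).mul_right (md n c k)
      rw [zero_mul] at this
      exact this
    · subst h1
      exact Cg.zero _ _

/-- inverse of one modulus modulo a later one -/
theorem inv1 (n j k : ℕ) (hjk : j < k) (hkn : k < n) : ∃ N : ℕ, ∀ (K : Type) [PAM K] (c : K),
    ∃ v, v ≤ (c + 2) ^ N ∧ Cg (md n c k) (md n c j * v) 1 := by
  obtain ⟨r, hr⟩ : ∃ r, k = j + r := ⟨k - j, by omega⟩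
  have hr0 : 0 < r := by omega
  obtain ⟨s, hs⟩ : r ∣ n.factorial := Nat.dvd_factorial hr0 (by omega)
  obtain ⟨N, hN⟩ := Mm_b n
  refine ⟨(((k + 1) ^ 3 * s + 1) + (max 1 (1 + 1) + 1)) + N, fun K _ c => ?_⟩
  refine ⟨((((k + 1) ^ 3 * s : ℕ) : K) * (c + 1)) * Mm n c, ?_, ?_⟩
  · have h1 : (1 : K) ≤ (c + 2) ^ (1 + 1) := by
      have := nat_b c 1
      simpa using this
    exact mul_b (mul_b (nat_b c _) (add_b (self_b c) h1)) (hN K c)
  · refine ⟨1 + ((k : K) + 1) * ((j : K) + 1) * ((s : K) * (c + 1)),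
      md n c j * (((k : K) + 1) ^ 2 * ((s : K) * (c + 1))), ?_⟩
    unfold md Mm
    rw [hs, hr]
    push_cast
    ring

/-- inverse of a product of moduli modulo a later one -/
theorem inv2 (n k : ℕ) (hkn : k < n) : ∀ l, l ≤ k → ∃ N : ℕ, ∀ (K : Type) [PAM K] (c : K),
    ∃ v, v ≤ (c + 2) ^ N ∧ Cg (md n c k) (pd n c l * v) 1 := by
  intro l
  induction l with
  | zero =>
    intro _
    refine ⟨0, fun K _ c => ⟨1, by simp, ?_⟩⟩
    simp only [pd, mul_one]
    exact Cg.refl _ _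
  | succ l ih =>
    intro hl
    obtain ⟨N, hN⟩ := ih (by omega)
    obtain ⟨N', hN'⟩ := inv1 n l k (by omega) hkn
    refine ⟨N + N', fun K _ c => ?_⟩
    obtain ⟨v, hv, h1⟩ := hN K c
    obtain ⟨v', hv', h2⟩ := hN' K c
    refine ⟨v * v', mul_b hv hv', ?_⟩
    have h3 := h1.mul h2
    rw [one_mul] at h3
    have h4 : pd n c (l + 1) * (v * v') = pd n c l * v * (md n c l * v') := by
      simp only [pd]; ring
    rw [h4]
    exact h3

/-- the remainder theorem for the first `l` moduli -/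
theorem crt (n : ℕ) : ∀ l, l ≤ n → ∃ N : ℕ, ∀ (K : Type) [PAM K] (c : K) (a : ℕ → K),
    (∀ i < n, a i ≤ c) → ∃ b, b ≤ (c + 2) ^ N ∧ ∀ i < l, Cg (md n c i) b (a i) := by
  intro l
  induction l with
  | zero =>
    intro _
    exact ⟨0, fun K _ c a _ => ⟨0, PAM.zero_le' _, fun i hi => absurd hi (Nat.not_lt_zero _)⟩⟩
  | succ l ih =>
    intro hl
    obtain ⟨N, hN⟩ := ih (by omega)
    obtain ⟨N1, hN1⟩ := pd_b n l
    obtain ⟨N2, hN2⟩ := inv2 n l (by omega) l le_rfl
    obtain ⟨N3, hN3⟩ := Mm_b n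
    refine ⟨max N ((N1 + N2) + (max 1 (N + ((l + 1 + 1) + N3)) + 1)) + 1, fun K _ c a ha => ?_⟩
    · obtain ⟨b, hb, h1⟩ := hN K c a ha
      obtain ⟨w, hw, h2⟩ := hN2 K c
      have h3 : ((l : K) + 1) ≤ (c + 2) ^ (l + 1 + 1) := by
        have := nat_b c (l + 1)
        push_cast at this
        exact this
      have h4 : a l ≤ (c + 2) ^ 1 := le_trans (ha l (by omega)) (self_b c)
      refine ⟨b + pd n c l * w * (a l + b * (((l : K) + 1) * Mm n c)),
        add_b hb (mul_b (mul_b (hN1 K c) hw) (add_b h4 (mul_b hb (mul_b h3 (hN3 K c))))), ?_⟩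
      intro i hi
      rcases Nat.lt_succ_iff_lt_or_eq.1 hi with h5 | h5
      · have h6 : Cg (md n c i) (pd n c l * w * (a l + b * (((l : K) + 1) * Mm n c))) 0 := by
          have h7 := ((pd_zero n c h5).mul_right w).mul_right (a l + b * (((l : K) + 1) * Mm n c))
          simp only [zero_mul] at h7
          exact h7
        have h8 := (h1 i h5).add h6
        rw [add_zero] at h8
        exact h8
      · subst h5
        have h6 := h2.mul_right (a i + b * (((i : K) + 1) * Mm n c))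
        rw [one_mul] at h6
        have h7 := (Cg.refl (md n c i) b).add h6
        refine h7.trans ?_
        refine ⟨0, b, ?_⟩
        unfold md
        ring

end Crt

theorem t_crt : CRTStmt := by
  intro n
  obtain ⟨N, hN⟩ := Crt.crt n n le_rfl
  obtain ⟨N1, hN1⟩ := Crt.pd_b n n
  obtain ⟨N2, hN2⟩ := Crt.Mm_b n
  refine ⟨max (max N (1 + N1) + 1) N2, fun K _ _ c a ha => ?_⟩
  obtain ⟨b, hb, h1⟩ := hN K c a ha
  have hM : c + 1 ≤ Crt.Mm n c := by
    unfold Crt.Mm
    have h2 : (1 : K) ≤ (n.factorial : K) := by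
      have := Nat.factorial_pos n
      exact_mod_cast this
    calc c + 1 = 1 * (c + 1) := (one_mul _).symm
      _ ≤ (n.factorial : K) * (c + 1) := mul_le_mul_of_nonneg_right h2 (PAM.zero_le' _)
  refine ⟨b + c * Crt.pd n c n, Crt.Mm n c, ?_, ?_, fun i hi => ⟨?_, ?_⟩⟩
  · exact le_trans (Crt.add_b hb (Crt.mul_b (Crt.self_b c) (hN1 K c)))
      (Crt.pw c (le_max_left _ _))
  · exact le_trans (hN2 K c) (Crt.pw c (le_max_right _ _))
  · have h3 : Crt.Mm n c ≤ ((i : K) + 1) * Crt.Mm n c := by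
      have h4 : (1 : K) ≤ (i : K) + 1 := by
        have := PAM.zero_le' (i : K)
        exact le_add_of_nonneg_left this
      calc Crt.Mm n c = 1 * Crt.Mm n c := (one_mul _).symm
        _ ≤ ((i : K) + 1) * Crt.Mm n c := mul_le_mul_of_nonneg_right h4 (PAM.zero_le' _)
    calc a i ≤ c := ha i hi
      _ < 1 + (c + 1) := by
        have h5 : c < c + 1 := lt_add_one c
        have h6 : c + 1 ≤ 1 + (c + 1) := le_add_of_nonneg_left zero_le_one
        exact lt_of_lt_of_le h5 h6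
      _ ≤ 1 + ((i : K) + 1) * Crt.Mm n c := by
        have := le_trans hM h3
        gcongr
  · have h3 : Crt.Cg (Crt.md n c i) (b + c * Crt.pd n c n) (a i) := by
      have h4 := (h1 i hi).add ((Crt.pd_zero n c hi).mul_left c)
      rw [mul_zero, add_zero] at h4
      exact h4
    have h5 : a i ≤ b + c * Crt.pd n c n := by
      calc a i ≤ c := ha i hi
        _ = c * 1 := (mul_one c).symm
        _ ≤ c * Crt.pd n c n := mul_le_mul_of_nonneg_left (Crt.one_le_pd n n c) (PAM.zero_le' _)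
        _ ≤ b + c * Crt.pd n c n := le_add_of_nonneg_left (PAM.zero_le' _)
    exact Crt.Cg.div (Crt.md_pos n i c) h5 h3

end Pool.FDA
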