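import Pool.Agent.H86.FDA.S1

namespace Pool.FDA

open Function Filter

namespace Los

variable {K : Type} [PAM K]

theorem val_germ (t : Tm) (E : ℕ → ℕ → K) :
    t.val (fun n => ((fun i => E i n : ℕ → K) : UP K)) =
      ((fun i => t.val (E i) : ℕ → K) : UP K) := by
  induction t with
  | var n => rfl
  | zero => rfl
  | one => rfl
  | add s t hs ht =>
    simp only [Tm.val]
    rw [hs, ht]
    rfl
  | mul s t hs ht =>
    simp only [Tm.val]
    rw [hs, ht]
    rfl

theorem los (φ : Fm) : ∀ E : ℕ → ℕ → K,
    Sat (fun n => ((fun i => E i n : ℕ → K) : UP K)) φ ↔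
      ∀ᶠ i in (hyperfilter ℕ : Filter ℕ), Sat (E i) φ := by
  classical
  induction φ with
  | eq s t =>
    intro E
    simp only [Sat]
    rw [val_germ, val_germ, Germ.coe_eq]
    rfl
  | lt s t =>
    intro E
    simp only [Sat]
    rw [val_germ, val_germ, Germ.coe_lt]
  | neg φ ih =>
    intro E
    simp only [Sat]
    rw [ih E, Ultrafilter.eventually_not]
  | and φ ψ ih1 ih2 =>
    intro E
    simp only [Sat]
    rw [ih1 E, ih2 E, eventually_and]
  | ex n φ ih =>
    intro E
    simp only [Sat]
    have key : ∀ f : ℕ → K, (update (fun n => ((fun i => E i n : ℕ → K) : UP K)) n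
        ((f : ℕ → K) : UP K)) =
        (fun m => ((fun i => (update (E i) n (f i)) m : ℕ → K) : UP K)) := by
      intro f
      funext m
      by_cases h : m = n
      · subst h
        simp
      · simp [h]
    constructor
    · rintro ⟨x, hx⟩
      induction x using Germ.inductionOn with
      | _ f =>
        rw [key f, ih] at hx
        filter_upwards [hx] with i hi
        exact ⟨f i, hi⟩
    · intro h
      refine ⟨((fun i => if hi : ∃ x, Sat (update (E i) n x) φ then Classical.choose hi else 0 :
        ℕ → K) : UP K), ?_⟩
      rw [key, ih]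
      filter_upwards [h] with i hi
      simp only [dif_pos hi]
      exact Classical.choose_spec hi

end Los

theorem t_los : LOSStmt := fun _ _ φ E => Los.los φ E

end Pool.FDA
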