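import Pool.Agent.H86.FDA.S1
import Pool.Agent.H70.FDA.LOS

namespace Pool.FDA

open Function Filter

namespace Pi2

/-! bounded quantifiers with a variable as bound -/

/-- `∀ x < w, φ` -/
def ball (w x : ℕ) (φ : Fm) : Fm := .neg (.ex x (.and (.lt (.var x) (.var w)) (.neg φ)))

/-- `∃ y < z, φ` -/
def bexF (z y : ℕ) (φ : Fm) : Fm := .ex y (.and (.lt (.var y) (.var z)) φ)

theorem ball_D0 {w x : ℕ} {φ : Fm} (hx : x ≠ w) (h : D0 φ) : D0 (ball w x φ) := by
  unfold ball
  refine D0.neg (D0.bex x (.var w) ?_ (D0.neg h))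
  simp [Tm.vars, hx]

theorem bexF_D0 {z y : ℕ} {φ : Fm} (hy : y ≠ z) (h : D0 φ) : D0 (bexF z y φ) := by
  unfold bexF
  refine D0.bex y (.var z) ?_ h
  simp [Tm.vars, hy]

theorem sat_ball {K : Type} [PAM K] {w x : ℕ} {φ : Fm} (hx : x ≠ w) (e : ℕ → K) :
    Sat e (ball w x φ) ↔ ∀ v < e w, Sat (update e x v) φ := by
  have hw : ∀ v, update e x v w = e w := fun v => update_of_ne (Ne.symm hx) _ _
  simp only [ball, Sat, Tm.val, update_self, hw]
  push Not
  exact Iff.rfl

theorem sat_bexF {K : Type} [PAM K] {z y : ℕ} {φ : Fm} (hy : y ≠ z) (e : ℕ → K) :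
    Sat e (bexF z y φ) ↔ ∃ v < e z, Sat (update e y v) φ := by
  have hw : ∀ v, update e y v z = e z := fun v => update_of_ne (Ne.symm hy) _ _
  simp only [bexF, Sat, Tm.val, update_self, hw]

theorem SP_zero {b : Bool} {n : ℕ} {φ : Fm} (h : SP b n φ) : n = 0 → D0 φ := by
  induction h with
  | base b h => intro _; exact h
  | up b h ih => intro h0; omega
  | ex x h ih => intro h0; omega
  | all x h ih => intro h0; omega

/-- `ψ` is a version of the `Σ₁`-formula `φ` with witnesses below the variable `z`. -/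
structure Bd (z : ℕ) (φ ψ : Fm) : Prop where
  d0 : D0 ψ
  dn : ∀ (K : Type) [PAM K] (e : ℕ → K), Sat e ψ → Sat e φ
  up : ∀ (K : Type) [PAM K] (e : ℕ → K), Sat e φ → ∃ b, Sat (update e z b) ψ
  mono : ∀ (K : Type) [PAM K] (e : ℕ → K) (b b' : K), b ≤ b' → Sat (update e z b) ψ →
    Sat (update e z b') ψ

theorem coi_upd (hcoi : COIStmt) {K : Type} [PAM K] {φ : Fm} {z : ℕ} (hz : z ∉ φ.fv)
    (e : ℕ → K) (b : K) : Sat (update e z b) φ ↔ Sat e φ := by
  refine hcoi K φ _ _ ?_
  intro n hn
  have hnz : n ≠ z := fun h => hz (h ▸ hn)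
  exact update_of_ne hnz _ _

theorem exists_bd (hcoi : COIStmt) {b : Bool} {n : ℕ} {φ : Fm} (h : SP b n φ) :
    b = true → n = 1 → ∃ N : ℕ, ∀ z ≥ N, ∃ ψ, Bd z φ ψ := by
  induction h with
  | base b h => intro _ h0; omega
  | up b h ih =>
    rename_i m φ
    intro _ h1
    have h0 : D0 φ := SP_zero h (by omega)
    refine ⟨φ.fv.sup id + 1, fun z hz => ⟨φ, h0, fun K _ e h => h, ?_, ?_⟩⟩
    · intro K _ e h
      refine ⟨0, (coi_upd hcoi ?_ e 0).2 h⟩
      intro hm
      have := Finset.le_sup (f := id) hm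
      simp only [id] at this
      omega
    · intro K _ e b b' _ h
      have hm : z ∉ φ.fv := by
        intro hm
        have := Finset.le_sup (f := id) hm
        simp only [id] at this
        omega
      rw [coi_upd hcoi hm] at h ⊢
      exact h
  | ex x h ih =>
    intro hb hn
    obtain ⟨N, hN⟩ := ih hb hn
    refine ⟨max N (x + 1), fun z hz => ?_⟩
    obtain ⟨ψ, hψ⟩ := hN z (le_trans (le_max_left _ _) hz)
    have hxz : x ≠ z := by
      have := le_trans (le_max_right N (x + 1)) hz
      omega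
    refine ⟨bexF z x ψ, bexF_D0 hxz hψ.d0, ?_, ?_, ?_⟩
    · intro K _ e h
      rw [sat_bexF hxz] at h
      obtain ⟨v, _, hv⟩ := h
      exact ⟨v, hψ.dn K _ hv⟩
    · rintro K _ e ⟨v, hv⟩
      obtain ⟨b, hb⟩ := hψ.up K _ hv
      refine ⟨max b (v + 1), ?_⟩
      rw [sat_bexF hxz]
      refine ⟨v, ?_, ?_⟩
      · rw [update_self]
        have h1 : v < v + 1 := lt_add_one v
        exact lt_of_lt_of_le h1 (le_max_right _ _)
      · rw [update_comm (Ne.symm hxz)]
        exact hψ.mono K _ _ _ (le_max_left _ _) hb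
    · intro K _ e b b' hbb h
      rw [sat_bexF hxz] at h ⊢
      rw [update_self] at h ⊢
      obtain ⟨v, hv, h⟩ := h
      refine ⟨v, lt_of_lt_of_le hv hbb, ?_⟩
      rw [update_comm (Ne.symm hxz)] at h ⊢
      exact hψ.mono K _ _ _ hbb h
  | all x h ih => intro hb; exact absurd hb (by simp)

/-! boxes -/

/-- iterated bounded universal quantifier -/
def boxF (w : ℕ) : List ℕ → Fm → Fm
  | [], φ => φ
  | x :: L, φ => ball w x (boxF w L φ)

def Box {K : Type} [PAM K] (e : ℕ → K) (L : List ℕ) (C : K) (u : ℕ → K) : Prop :=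
  (∀ n ∉ L, u n = e n) ∧ ∀ n ∈ L, u n < C

theorem box_cons {K : Type} [PAM K] {e : ℕ → K} {x : ℕ} {L : List ℕ} {C : K} {u : ℕ → K} :
    Box e (x :: L) C u ↔ ∃ v < C, Box (update e x v) L C u := by
  constructor
  · rintro ⟨h1, h2⟩
    refine ⟨u x, h2 x (by simp), fun n hn => ?_, fun n hn => h2 n (by simp [hn])⟩
    by_cases h : n = x
    · subst h; simp
    · rw [update_of_ne h]
      exact h1 n (by simp [h, hn])
  · rintro ⟨v, hv, h1, h2⟩
    refine ⟨fun n hn => ?_, fun n hn => ?_⟩
    · have h := h1 n (fun h => hn (by simp [h]))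
      rwa [update_of_ne (fun h => hn (by simp [h]))] at h
    · by_cases h : n ∈ L
      · exact h2 n h
      · have h' := h1 n h
        have hx : n = x := by simpa [h] using hn
        rw [h', hx, update_self]
        exact hv

theorem boxF_D0 {w : ℕ} {φ : Fm} (h : D0 φ) : ∀ L : List ℕ, w ∉ L → D0 (boxF w L φ)
  | [], _ => h
  | x :: L, hw => by
    have h1 : x ≠ w := fun h => hw (by simp [h])
    exact ball_D0 h1 (boxF_D0 h L (fun h => hw (by simp [h])))

theorem sat_boxF {K : Type} [PAM K] {w : ℕ} {φ : Fm} : ∀ (L : List ℕ), w ∉ L →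
    ∀ e : ℕ → K, Sat e (boxF w L φ) ↔ ∀ u, Box e L (e w) u → Sat u φ
  | [], _, e => by
    constructor
    · intro h u hu
      have : u = e := funext fun n => hu.1 n (by simp)
      rw [this]; exact h
    · intro h
      exact h e ⟨fun _ _ => rfl, fun n hn => by simp at hn⟩
  | x :: L, hw, e => by
    have h1 : x ≠ w := fun h => hw (by simp [h])
    have h2 : w ∉ L := fun h => hw (by simp [h])
    have hew : ∀ v, update e x v w = e w := fun v => update_of_ne (Ne.symm h1) _ _
    rw [boxF, sat_ball h1]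
    constructor
    · intro h u hu
      rw [box_cons] at hu
      obtain ⟨v, hv, hu⟩ := hu
      have h3 := h v hv
      rw [sat_boxF L h2] at h3
      refine h3 u ?_
      rw [hew]; exact hu
    · intro h v hv
      rw [sat_boxF L h2]
      intro u hu
      rw [hew] at hu
      exact h u (box_cons.2 ⟨v, hv, hu⟩)

theorem box_upd {K : Type} [PAM K] {e : ℕ → K} {z : ℕ} {L : List ℕ} {C b : K} {u : ℕ → K}
    (hz : z ∉ L) (h : Box (update e z b) L C u) :
    Box e L C (update u z (e z)) ∧ update (update u z (e z)) z b = u := by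
  have huz : u z = b := by
    have := h.1 z hz
    rwa [update_self] at this
  refine ⟨⟨fun n hn => ?_, fun n hn => ?_⟩, ?_⟩
  · by_cases hnz : n = z
    · subst hnz; simp
    · rw [update_of_ne hnz]
      have := h.1 n hn
      rwa [update_of_ne hnz] at this
  · have hnz : n ≠ z := fun h => hz (h ▸ hn)
    rw [update_of_ne hnz]
    exact h.2 n hn
  · rw [update_idem, ← huz, update_eq_self]

/-- collection on boxes -/
theorem coll_box {J : Type} [PAM J] (hc : Coll0 J) {w z : ℕ} (hwz : w ≠ z) {θ : Fm}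
    (hθ : D0 θ) (hm : ∀ (e : ℕ → J) (b b' : J), b ≤ b' → Sat (update e z b) θ →
      Sat (update e z b') θ) : ∀ (L : List ℕ), w ∉ L → z ∉ L → ∀ e : ℕ → J,
    (∀ u, Box e L (e w) u → ∃ b, Sat (update u z b) θ) →
    ∃ b, ∀ u, Box e L (e w) u → Sat (update u z b) θ
  | [], _, _, e, h => by
    obtain ⟨b, hb⟩ := h e ⟨fun _ _ => rfl, fun n hn => by simp at hn⟩
    refine ⟨b, fun u hu => ?_⟩
    have : u = e := funext fun n => hu.1 n (by simp)
    rw [this]; exact hb
  | x :: L, hw, hz, e, h => by
    have h1 : x ≠ w := fun h => hw (by simp [h])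
    have h2 : w ∉ L := fun h => hw (by simp [h])
    have h3 : x ≠ z := fun h => hz (by simp [h])
    have h4 : z ∉ L := fun h => hz (by simp [h])
    have hew : ∀ v, update e x v w = e w := fun v => update_of_ne (Ne.symm h1) _ _
    have key : ∀ v < e w, ∃ b, Sat (update (update e x v) z b) (boxF w L θ) := by
      intro v hv
      obtain ⟨b, hb⟩ := coll_box hc hwz hθ hm L h2 h4 (update e x v) (by
        intro u hu
        rw [hew] at hu
        exact h u (box_cons.2 ⟨v, hv, hu⟩))
      refine ⟨b, ?_⟩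
      rw [sat_boxF L h2]
      intro u hu
      rw [update_of_ne hwz, hew] at hu
      obtain ⟨h5, h6⟩ := box_upd h4 hu
      rw [← h6]
      refine hb _ ?_
      rw [hew]
      exact h5
    obtain ⟨B, hB⟩ := hc (boxF w L θ) (boxF_D0 hθ L h2) x z h3 e (e w) key
    refine ⟨B, fun u hu => ?_⟩
    rw [box_cons] at hu
    obtain ⟨v, hv, hu⟩ := hu
    obtain ⟨b, hbB, hb⟩ := hB v hv
    refine hm u b B hbB.le ?_
    rw [sat_boxF L h2] at hb
    refine hb _ ?_
    rw [update_of_ne hwz, hew]
    refine ⟨fun n hn => ?_, fun n hn => ?_⟩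
    · by_cases hnz : n = z
      · subst hnz; simp
      · rw [update_of_ne hnz, update_of_ne hnz]
        exact hu.1 n hn
    · have hnz : n ≠ z := fun h => h4 (h ▸ hn)
      rw [update_of_ne hnz]
      exact hu.2 n hn

variable {J J' : Type} [PAM J] [PAM J'] {i : J →+* J'} {j : J' →+* UP J}

theorem ini_j (h : Hul J J' i j) : Ini (j : J' → UP J) := by
  intro x y hy
  obtain ⟨c, hc⟩ := h.cof x
  refine h.conv y c ?_
  have h1 : j x ≤ j (i c) := h.jmono.monotone hc
  rw [h.comm] at h1
  exact le_of_lt (lt_of_lt_of_le hy h1)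

theorem exists_rep (h : Hul J J' i j) {e : ℕ → J} {L : List ℕ} {C : J} {u' : ℕ → J'}
    (h1 : ∀ n ∉ L, u' n = i (e n)) (h2 : ∀ n ∈ L, u' n < i C) :
    ∃ G : ℕ → ℕ → J, (∀ n, ((fun k => G k n : ℕ → J) : UP J) = j (u' n)) ∧
      ∀ k, Box e L C (G k) := by
  have key : ∀ n, ∃ f : ℕ → J, ((f : ℕ → J) : UP J) = j (u' n) ∧
      (n ∉ L → ∀ k, f k = e n) ∧ (n ∈ L → ∀ k, f k < C) := by
    intro n
    by_cases hn : n ∈ L
    · have hlt : j (u' n) < cst C := by
        rw [← h.comm]
        exact h.jmono (h2 n hn)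
      generalize j (u' n) = g at hlt
      induction g using Germ.inductionOn with
      | _ f =>
        have hlt' : ((f : ℕ → J) : UP J) < ((fun _ => C : ℕ → J) : UP J) := hlt
        rw [Germ.coe_lt] at hlt'
        have hC : (0 : J) < C := by
          obtain ⟨k, hk⟩ := hlt'.exists
          exact lt_of_le_of_lt (PAM.zero_le' _) hk
        classical
        refine ⟨fun k => if f k < C then f k else 0, ?_, fun h => absurd hn h, fun _ k => ?_⟩
        · rw [Germ.coe_eq]
          filter_upwards [hlt'] with k hk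
          rw [if_pos hk]
        · dsimp only
          split_ifs with hk
          · exact hk
          · exact hC
    · refine ⟨fun _ => e n, ?_, fun _ _ => rfl, fun h => absurd h hn⟩
      rw [h1 n hn, h.comm]
      rfl
  choose f hf1 hf2 hf3 using key
  exact ⟨fun k n => f n k, hf1, fun k => ⟨fun n hn => hf2 n hn k, fun n hn => hf3 n hn k⟩⟩

theorem sig1 (hcoi : COIStmt) (hini : INIStmt) (h : Hul J J' i j) (hc : Coll0 J) {φ : Fm}
    (hφ : SP true 1 φ) (e : ℕ → J) (L : List ℕ) (C : J)
    (hb : ∀ u, Box e L C u → Sat u φ) (u' : ℕ → J')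
    (h1 : ∀ n ∉ L, u' n = i (e n)) (h2 : ∀ n ∈ L, u' n < i C) : Sat u' φ := by
  obtain ⟨N, hN⟩ := exists_bd hcoi hφ rfl rfl
  set z : ℕ := N + φ.fv.sup id + L.sum + 1 with hz
  obtain ⟨ψ, hψ⟩ := hN z (by omega)
  have hzL : z ∉ L := by
    intro hm
    have := List.single_le_sum (by simp) z hm
    omega
  have hzφ : z ∉ φ.fv := by
    intro hm
    have := Finset.le_sup (f := id) hm
    simp only [id] at this
    omega
  set w : ℕ := z + ψ.fv.sup id + 1 with hw
  have hwL : w ∉ L := by
    intro hm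
    have := List.single_le_sum (by simp) w hm
    omega
  have hwφ : w ∉ φ.fv := by
    intro hm
    have := Finset.le_sup (f := id) hm
    simp only [id] at this
    omega
  have hwψ : w ∉ ψ.fv := by
    intro hm
    have := Finset.le_sup (f := id) hm
    simp only [id] at this
    omega
  have hwz : w ≠ z := by omega
  obtain ⟨b, hbb⟩ := coll_box hc hwz hψ.d0 (fun e b b' => hψ.mono J e b b') L hwL hzL
    (update e w C) (by
      intro u hu
      rw [update_self] at hu
      obtain ⟨h5, h6⟩ := box_upd hwL hu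
      refine hψ.up J u ?_
      rw [← h6, coi_upd hcoi hwφ]
      exact hb _ h5)
  rw [update_self] at hbb
  have hall : ∀ u, Box e L C u → Sat (update u z b) ψ := by
    intro u hu
    have h7 : Box (update e w C) L C (update u w C) := by
      refine ⟨fun n hn => ?_, fun n hn => ?_⟩
      · by_cases hnw : n = w
        · subst hnw; simp
        · rw [update_of_ne hnw, update_of_ne hnw]; exact hu.1 n hn
      · have hnw : n ≠ w := fun h => hwL (h ▸ hn)
        rw [update_of_ne hnw]; exact hu.2 n hn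
    have h8 := hbb _ h7
    rw [update_comm hwz, coi_upd hcoi hwψ] at h8
    exact h8
  rw [← coi_upd hcoi hzφ u' (i b)]
  refine hψ.dn J' _ ?_
  rw [hini J' (UP J) j h.jmono (ini_j h) ψ hψ.d0]
  obtain ⟨G, hG1, hG2⟩ := exists_rep h h1 h2
  have hE : (fun n => j (update u' z (i b) n)) =
      (fun n => ((fun k => update (G k) z b n : ℕ → J) : UP J)) := by
    funext n
    by_cases hn : n = z
    · subst hn
      simp only [update_self]
      exact h.comm b
    · simp only [update_of_ne hn]
      exact (hG1 n).symm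
  rw [hE, Los.los]
  exact Eventually.of_forall fun k => hall _ (hG2 k)

theorem exists_bound (h : Hul J J' i j) (u' : ℕ → J') : ∀ L : List ℕ,
    ∃ C : J, ∀ n ∈ L, u' n < i C
  | [] => ⟨0, fun n hn => by simp at hn⟩
  | x :: L => by
    obtain ⟨C, hC⟩ := exists_bound h u' L
    obtain ⟨c, hc⟩ := h.cof (u' x)
    refine ⟨max C (c + 1), fun n hn => ?_⟩
    by_cases hx : n ∈ L
    · exact lt_of_lt_of_le (hC n hx) (h.imono.monotone (le_max_left _ _))
    · have : n = x := by simpa [hx] using hn
      subst this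
      refine lt_of_le_of_lt hc (h.imono ?_)
      exact lt_of_lt_of_le (lt_add_one c) (le_max_right _ _)

theorem pi2 (hcoi : COIStmt) (hini : INIStmt) (h : Hul J J' i j) (hc : Coll0 J) {b : Bool}
    {n : ℕ} {φ : Fm} (hφ : SP b n φ) : b = false → n = 2 → ∀ (e : ℕ → J) (L : List ℕ),
    (∀ u : ℕ → J, (∀ n ∉ L, u n = e n) → Sat u φ) →
    ∀ u' : ℕ → J', (∀ n ∉ L, u' n = i (e n)) → Sat u' φ := by
  induction hφ with
  | base b h => intro _ h0; omega
  | up b hs ih =>
    rename_i m φ
    intro hb hn e L hu u' hu'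
    subst hb
    have hm : m = 1 := by omega
    subst hm
    obtain ⟨C, hC⟩ := exists_bound h u' L
    exact sig1 hcoi hini h hc hs e L C (fun u hb => hu u hb.1) u' hu' hC
  | ex x hs ih => intro hb; exact absurd hb (by simp)
  | all x hs ih =>
    rename_i m φ
    intro hb hn e L hu u' hu'
    have h1 := ih hb hn e (x :: L) (by
      intro u hux
      have h2 := hu (update u x (e x)) (by
        intro k hk
        by_cases hkx : k = x
        · subst hkx; simp
        · rw [update_of_ne hkx]
          exact hux k (by simp [hkx, hk]))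
      simp only [Fm.all, Sat, not_exists, not_not] at h2
      have h3 := h2 (u x)
      rwa [update_idem, update_eq_self] at h3)
    simp only [Fm.all, Sat, not_exists, not_not]
    intro v
    refine h1 _ ?_
    intro k hk
    have hkx : k ≠ x := fun h => hk (by simp [h])
    rw [update_of_ne hkx]
    exact hu' k (fun h => hk (by simp [h]))

end Pi2

theorem t_pi2 (hcoi : COIStmt) (hini : INIStmt) : PI2Stmt := by
  intro J J' _ _ i j h hc φ hφ e he
  refine Pi2.pi2 hcoi hini h hc hφ rfl rfl e [] ?_ _ ?_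
  · intro u hu
    have : u = e := funext fun n => hu n (by simp)
    rw [this]; exact he
  · intro n _
    rfl

end Pool.FDA
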