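import Pool.Agent.H86.FDA.S1

namespace Pool.FDA

open Function Filter

namespace Tri

theorem upd_comp {K K' : Type} (ι : K → K') (e : ℕ → K) (x : ℕ) (u : K) :
    (fun n => ι (update e x u n)) = update (fun n => ι (e n)) x (ι u) := by
  funext n
  by_cases h : n = x
  · subst h; simp
  · simp [h]

theorem pred {K : Type} [PAM K] {v : K} (h : v ≠ 0) : ∃ v₀, v = v₀ + 1 := by
  have h0 : 0 < v := lt_of_le_of_ne (PAM.zero_le' v) (Ne.symm h)
  obtain ⟨z, hz⟩ := PAM.sub' 1 v (PAM.disc' v h0)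
  exact ⟨z, by rw [← hz, add_comm]⟩

variable {K K' : Type} [PAM K] [PAM K']

theorem ind (hini : INIStmt) (hlnp : LNPStmt) (ι : K →+* K') (hm : StrictMono ι)
    (hi : Ini (ι : K → K')) (hK : IDelta0 K') : IDelta0 K := by
  intro φ hφ x e h0 hs u
  by_contra hu
  have habs := hini K K' ι hm hi
  have h1 : ∃ u, Sat (update (fun n => ι (e n)) x u) (.neg φ) := by
    refine ⟨ι u, ?_⟩
    simp only [Sat]
    rw [← upd_comp, ← habs φ hφ]
    exact hu
  obtain ⟨v', hv', hmin⟩ := hlnp K' hK (.neg φ) (D0.neg hφ) x _ h1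
  have h2 : ∃ v, ι v = v' := by
    rcases lt_or_ge v' (ι u) with h | h
    · exact hi u v' h
    · rcases eq_or_lt_of_le h with h | h
      · exact ⟨u, h⟩
      · exfalso
        have := hmin (ι u) h
        simp only [Sat, not_not] at this
        rw [← upd_comp, ← habs φ hφ] at this
        exact hu this
  obtain ⟨v, rfl⟩ := h2
  simp only [Sat] at hv'
  rw [← upd_comp, ← habs φ hφ] at hv'
  have hv0 : v ≠ 0 := by
    rintro rfl
    exact hv' h0
  obtain ⟨v₀, rfl⟩ := pred hv0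
  have h3 := hmin (ι v₀) (hm (lt_add_one v₀))
  simp only [Sat, not_not] at h3
  rw [← upd_comp, ← habs φ hφ] at h3
  exact hv' (hs v₀ h3)

/-- `∀ x < w ∃ y < z φ` -/
def th (w z x y : ℕ) (φ : Fm) : Fm :=
  .neg (.ex x (.and (.lt (.var x) (.var w)) (.neg (.ex y (.and (.lt (.var y) (.var z)) φ)))))

theorem th_D0 {w z x y : ℕ} {φ : Fm} (hxw : x ≠ w) (hyz : y ≠ z) (h : D0 φ) :
    D0 (th w z x y φ) := by
  unfold th
  refine D0.neg (D0.bex x (.var w) ?_ (D0.neg (D0.bex y (.var z) ?_ h)))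
  · simp [Tm.vars, hxw]
  · simp [Tm.vars, hyz]

theorem sat_th {w z x y : ℕ} {φ : Fm} (hxw : x ≠ w) (hyz : y ≠ z) (hxz : x ≠ z)
    (e : ℕ → K) : Sat e (th w z x y φ) ↔
      ∀ u < e w, ∃ v < e z, Sat (update (update e x u) y v) φ := by
  have hw : ∀ v, update e x v w = e w := fun v => update_of_ne (Ne.symm hxw) _ _
  have hz : ∀ u v, update (update e x u) y v z = e z := fun u v => by
    rw [update_of_ne (Ne.symm hyz), update_of_ne (Ne.symm hxz)]
  simp only [th, Sat, Tm.val, update_self, hw, hz]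
  push Not
  exact Iff.rfl

theorem coi3 (hcoi : COIStmt) {K : Type} [PAM K] {φ : Fm} {w z : ℕ} (hw : w ∉ φ.fv)
    (hz : z ∉ φ.fv) {x y : ℕ} (e : ℕ → K) (a b u v : K) (hxw : x ≠ w) (hxz : x ≠ z)
    (hyw : y ≠ w) (hyz : y ≠ z) :
    Sat (update (update (update (update e w a) z b) x u) y v) φ ↔
      Sat (update (update e x u) y v) φ := by
  refine hcoi K φ _ _ ?_
  intro n hn
  have hnw : n ≠ w := fun h => hw (h ▸ hn)
  have hnz : n ≠ z := fun h => hz (h ▸ hn)
  by_cases hy : n = y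
  · subst hy; simp
  · rw [update_of_ne hy, update_of_ne hy]
    by_cases hx : n = x
    · subst hx; simp
    · rw [update_of_ne hx, update_of_ne hx, update_of_ne hnz, update_of_ne hnw]

theorem coll (hcoi : COIStmt) (hini : INIStmt) (hlnp : LNPStmt) (ι : K →+* K')
    (hm : StrictMono ι) (hi : Ini (ι : K → K')) (hK : IDelta0 K')
    (hY : ∃ y : K', ∀ x : K, ι x ≤ y) : Coll0 K := by
  intro φ hφ x y hxy e a h
  have habs := hini K K' ι hm hi
  obtain ⟨Y, hY⟩ := hY
  set w : ℕ := φ.fv.sup id + x + y + 1 with hw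
  set z : ℕ := w + 1 with hz
  have hwφ : w ∉ φ.fv := by
    intro hmm
    have := Finset.le_sup (f := id) hmm
    simp only [id] at this
    omega
  have hzφ : z ∉ φ.fv := by
    intro hmm
    have := Finset.le_sup (f := id) hmm
    simp only [id] at this
    omega
  have hxw : x ≠ w := by omega
  have hxz : x ≠ z := by omega
  have hyw : y ≠ w := by omega
  have hyz : y ≠ z := by omega
  have hwz : w ≠ z := by omega
  set E : ℕ → K' := update (fun n => ι (e n)) w (ι a) with hE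
  have hEw : ∀ b, update E z b w = ι a := fun b => by
    rw [update_of_ne hwz, hE, update_self]
  have hEz : ∀ b, update E z b z = b := fun b => update_self _ _ _
  have hsat : ∀ b, Sat (update E z b) (th w z x y φ) ↔
      ∀ u < ι a, ∃ v < b, Sat (update (update (fun n => ι (e n)) x u) y v) φ := by
    intro b
    rw [sat_th hxw hyz hxz, hEw, hEz]
    refine forall_congr' fun u => ?_
    refine forall_congr' fun _ => ?_
    refine exists_congr fun v => ?_
    refine and_congr_right fun _ => ?_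
    exact coi3 hcoi hwφ hzφ _ _ _ _ _ hxw hxz hyw hyz
  have key : ∀ B : K', (∀ x : K, ι x ≤ B) → Sat (update E z B) (th w z x y φ) := by
    intro B hB
    rw [hsat]
    intro u' hu'
    obtain ⟨u, rfl⟩ := hi a u' hu'
    obtain ⟨v, hv⟩ := h u (hm.lt_iff_lt.1 hu')
    refine ⟨ι v, ?_, ?_⟩
    · exact lt_of_lt_of_le (hm (lt_add_one v)) (hB (v + 1))
    · rw [← upd_comp, ← upd_comp, ← habs φ hφ]
      exact hv
  obtain ⟨b₀, hb₀, hmin⟩ := hlnp K' hK _ (th_D0 hxw hyz hφ) z E ⟨Y, key Y hY⟩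
  by_cases him : ∃ b, ι b = b₀
  · obtain ⟨b, rfl⟩ := him
    rw [hsat] at hb₀
    refine ⟨b, fun u hu => ?_⟩
    obtain ⟨v', hv', hs⟩ := hb₀ (ι u) (hm hu)
    obtain ⟨v, rfl⟩ := hi b v' hv'
    rw [← upd_comp, ← upd_comp, ← habs φ hφ] at hs
    exact ⟨v, hm.lt_iff_lt.1 hv', hs⟩
  · exfalso
    have habove : ∀ t : K, ι t < b₀ := by
      intro t
      rcases lt_trichotomy (ι t) b₀ with h1 | h1 | h1
      · exact h1
      · exact absurd ⟨t, h1⟩ him
      · exact absurd (hi t b₀ h1) him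
    have hb0 : b₀ ≠ 0 := by
      intro h0
      have := habove 0
      rw [map_zero, h0] at this
      exact lt_irrefl _ this
    obtain ⟨b', rfl⟩ := pred hb0
    refine hmin b' (lt_add_one b') (key b' fun t => ?_)
    have h1 := habove t
    by_contra hc
    have h2 : b' < ι t := not_le.1 hc
    obtain ⟨q, hq⟩ := PAM.sub' b' (ι t) h2.le
    have hq0 : 0 < q := by
      rcases eq_or_lt_of_le (PAM.zero_le' q) with h3 | h3
      · rw [← h3, add_zero] at hq
        exact absurd hq (ne_of_lt h2)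
      · exact h3
    have h4 : b' + 1 ≤ ι t := by
      rw [← hq]
      have := PAM.disc' q hq0
      gcongr
    exact absurd h1 (not_lt.2 h4)

end Tri

theorem t_tri (hcoi : COIStmt) (hini : INIStmt) (hlnp : LNPStmt) : TRIStmt :=
  fun _ _ _ _ ι hm hi hK =>
    ⟨Tri.ind hini hlnp ι hm hi hK, Tri.coll hcoi hini hlnp ι hm hi hK⟩

end Pool.FDA
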